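import Pool.Agent.Run7.h962.NW.Stm
import Pool.Agent.N422.WS.MOD
import Pool.Agent.N422.WS.W
import Pool.Agent.N422.WS.KM
import Pool.Agent.N422.WS.KA
import Pool.Agent.N422.WS.KP
import Pool.Agent.N422.WS.GEN
import Pool.Agent.N422.NW.JEN

/-!
# The number of hits (piece HITN of helper962's project)
-/

set_option autoImplicit false

open Finset

namespace Pool.Agent.Run7.h571.NW

open Pool.Agent.N422.NW Pool.Agent.N422.NWS Pool.Agent.N422.SL Pool.Agent.N422.WS
open Pool.Agent.Run7.h962.NW (S_HITN)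

/-- the state with the hit set `T` and the sites `s` -/
def gam {N k : ℕ} (T : Finset (Fin N)) (s : Fin N → Fin k) : St N k :=
  fun i => if i ∈ T then some (s i) else none

/-- the set of the places hit -/
def hit {N k : ℕ} (γ : St N k) : Finset (Fin N) := univ.filter (fun i => γ i ≠ none)

/-- averages over the sites -/
noncomputable def avs {N k : ℕ} (f : St N k → ℝ) (T : Finset (Fin N)) : ℝ :=
  ((k : ℝ) ^ N)⁻¹ * ∑ s : Fin N → Fin k, f (gam T s)

theorem hit_gam {N k : ℕ} (T : Finset (Fin N)) (s : Fin N → Fin k) : hit (gam T s) = T := by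
  ext i
  simp only [hit, gam, mem_filter, mem_univ, true_and]
  by_cases h : i ∈ T <;> simp [h]

theorem cnt {N k : ℕ} (γ : St N k) :
    ((univ.filter (fun s : Fin N → Fin k => gam (hit γ) s = γ)).card : ℝ) =
      ∏ i, (if γ i = none then (k : ℝ) else 1) := by
  have h1 : (univ.filter (fun s : Fin N → Fin k => gam (hit γ) s = γ)) =
      Fintype.piFinset (fun i => if γ i = none then univ else univ.filter (fun a => some a = γ i)) := by
    ext s
    simp only [mem_filter, mem_univ, true_and, Fintype.mem_piFinset]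
    constructor
    · intro h i
      have h2 := congrFun h i
      by_cases h3 : γ i = none
      · simp [h3]
      · have h4 : i ∈ hit γ := by simp [hit, h3]
        simp only [gam, h4, if_true] at h2
        simp [h3, h2]
    · intro h
      funext i
      have h2 := h i
      by_cases h3 : γ i = none
      · have h4 : i ∉ hit γ := by simp [hit, h3]
        simp [gam, h4, h3]
      · have h4 : i ∈ hit γ := by simp [hit, h3]
        simp only [h3, if_false, mem_filter, mem_univ, true_and] at h2
        simp [gam, h4, h2]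
  rw [h1, Fintype.card_piFinset]
  push_cast
  refine Finset.prod_congr rfl (fun i _ => ?_)
  cases h : γ i with
  | none => simp
  | some a =>
    have : (univ.filter (fun b : Fin k => b = a)) = {a} := by
      ext b; simp
    simp [this]

theorem local_id {N k : ℕ} (hk : 0 < k) (u : Fin N → ℝ) (γ : St N k) :
    ((k : ℝ) ^ N)⁻¹ * (muT (fun i => k * u i) (hit γ) * ∏ i, (if γ i = none then (k : ℝ) else 1)) = muU u γ := by
  have hk0 : (k : ℝ) ≠ 0 := by exact_mod_cast hk.ne'
  have h1 : ((k : ℝ) ^ N)⁻¹ = ∏ _i : Fin N, (k : ℝ)⁻¹ := by simp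
  rw [h1, muT, ← Finset.prod_mul_distrib, ← Finset.prod_mul_distrib, muU]
  refine Finset.prod_congr rfl (fun i _ => ?_)
  cases h : γ i with
  | none =>
    have h4 : i ∉ hit γ := by simp [hit, h]
    simp only [h4, if_false, if_true, mu1u]
    field_simp
  | some a =>
    have h4 : i ∈ hit γ := by simp [hit, h]
    simp only [h4, if_true, mu1u]
    simp
    field_simp

theorem trans_id {N k : ℕ} (hk : 0 < k) (u : Fin N → ℝ) (f : St N k → ℝ) (G : Finset (Fin N) → ℝ) :
    ∑ T, muT (fun i => k * u i) T * avs f T * G T = ∑ γ, muU u γ * f γ * G (hit γ) := by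
  have h1 : ∀ T : Finset (Fin N), muT (fun i => k * u i) T * avs f T * G T =
      ∑ γ : St N k, ((k : ℝ) ^ N)⁻¹ * (muT (fun i => k * u i) (hit γ) * f γ * G (hit γ)) *
        (if hit γ = T then ((univ.filter (fun s : Fin N → Fin k => gam (hit γ) s = γ)).card : ℝ) else 0) := by
    intro T
    have h2 : avs f T = ((k : ℝ) ^ N)⁻¹ * ∑ γ : St N k,
        ((univ.filter (fun s : Fin N → Fin k => gam T s = γ)).card : ℝ) * f γ := by
      rw [avs]
      congr 1
      rw [← Finset.sum_fiberwise univ (fun s : Fin N → Fin k => gam T s)]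
      refine Finset.sum_congr rfl (fun γ _ => ?_)
      rw [Finset.sum_congr rfl (g := fun _ => f γ)]
      · rw [Finset.sum_const, nsmul_eq_mul]
      · intro s hs
        rw [(mem_filter.1 hs).2]
    rw [h2, mul_assoc, mul_comm (_ * ∑ γ, _) (G T), Finset.mul_sum, Finset.mul_sum, Finset.mul_sum]
    refine Finset.sum_congr rfl (fun γ _ => ?_)
    by_cases h3 : hit γ = T
    · subst h3
      simp only [if_true]
      ring
    · have h4 : (univ.filter (fun s : Fin N → Fin k => gam T s = γ)) = ∅ := by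
        rw [Finset.filter_eq_empty_iff]
        intro s _ h5
        exact h3 (by rw [← h5, hit_gam])
      rw [h4]
      simp [h3]
  rw [Finset.sum_congr rfl (fun T _ => h1 T), Finset.sum_comm]
  refine Finset.sum_congr rfl (fun γ _ => ?_)
  rw [← Finset.mul_sum, Finset.sum_ite_eq, if_pos (mem_univ _), cnt, ← local_id hk u γ]
  ring

theorem lev_avs {N k n : ℕ} (β : Fin N → ℕ) (f : St N k → ℝ) (h : Lev β n f) : LevT β n (avs f) := by
  obtain ⟨m, S, g, h1, h2, h3⟩ := h
  refine ⟨m, S, fun x => avs (g x), h1, fun x T T' hT => ?_, fun T => ?_⟩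
  · simp only [avs]
    congr 1
    refine Finset.sum_congr rfl (fun s _ => h2 x _ _ (fun i hi => ?_))
    simp only [gam, hT i hi]
  · simp only [avs]
    rw [← Finset.mul_sum, Finset.sum_comm]
    congr 1
    exact Finset.sum_congr rfl (fun s _ => h3 _)

theorem t_HITN' (hM : S_MOD1) : S_HITN := by
  intro N k m n u β f hk hm hn hβ hu hf hL
  have h := hM N m n (fun i => k * u i) β (avs f) hm hn
    (fun i => ⟨mul_nonneg (Nat.cast_nonneg _) (hu i).1, (hu i).2⟩) hβ (lev_avs β f hL)
    (fun T => mul_nonneg (inv_nonneg.2 (pow_nonneg (Nat.cast_nonneg _) _)) (Finset.sum_nonneg (fun s _ => hf _)))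
  have e0 : ∑ T, muT (fun i => (k : ℝ) * u i) T * avs f T = ∑ γ, muU u γ * f γ := by
    have := trans_id hk u f (fun _ => 1)
    simpa using this
  have e1 : ∀ i : Fin N, ∑ T, muT (fun i => (k : ℝ) * u i) T * avs f T * (if i ∈ T then 1 else 0) =
      ∑ γ, muU u γ * f γ * (if i ∈ hit γ then 1 else 0) := fun i =>
    trans_id hk u f (fun T => if i ∈ T then 1 else 0)
  rw [e0] at h
  simp only [e1] at h
  rw [← Finset.mul_sum] at h
  have e2 : ∑ γ, muU u γ * f γ * ((univ.filter (fun i => γ i ≠ none)).card : ℝ) =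
      ∑ i, ∑ γ, muU u γ * f γ * (if i ∈ hit γ then 1 else 0) := by
    rw [Finset.sum_comm]
    refine Finset.sum_congr rfl (fun γ _ => ?_)
    rw [← Finset.mul_sum]
    congr 1
    rw [Finset.sum_ite_mem, Finset.univ_inter, Finset.sum_const, nsmul_eq_mul, mul_one]
    rfl
  rw [e2]
  have h3 : ∑ i, ∑ γ, muU u γ * f γ * (if i ∈ hit γ then 1 else 0) ≤
      ∑ i, (k * u i * ∑ γ, muU u γ * f γ +
        |∑ γ, muU u γ * f γ * (if i ∈ hit γ then 1 else 0) - k * u i * ∑ γ, muU u γ * f γ|) := by
    refine Finset.sum_le_sum (fun i _ => ?_)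
    have := le_abs_self (∑ γ, muU u γ * f γ * (if i ∈ hit γ then 1 else 0) - k * u i * ∑ γ, muU u γ * f γ)
    linarith
  refine h3.trans ?_
  rw [Finset.sum_add_distrib, ← Finset.sum_mul, ← Finset.mul_sum]
  nlinarith [h]

theorem t_HITN : S_HITN :=
  t_HITN' (t_MOD1 (t_W t_AV) (t_KM (t_W t_AV) t_KA (t_KP (t_W t_AV)) (t_GEN2 t_JEN t_AV)))

end Pool.Agent.Run7.h571.NW
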